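import Pool.Agent.Y493.Br.Refl

set_option autoImplicit false

/-!
Soundness of the polynomial reflection library of `Pool.Agent.Y493.Br.Refl` (job BR-L1).
-/

namespace Y899.BR

open Y493.Br.Refl

section sem
variable {A : Type} [CommRing A]

/-! coefficient polynomials -/

theorem cev_nil (r : A) : cev r [] = 0 := rfl

theorem cev_cons (r : A) (x : Int) (a : Cf) : cev r (x :: a) = (x : A) + r * cev r a := rfl

theorem cev_cadd (r : A) (a b : Cf) : cev r (cadd a b) = cev r a + cev r b := by
  induction a generalizing b with
  | nil => simp [cadd, cev]
  | cons x a ih =>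
    cases b with
    | nil => simp [cadd, cev]
    | cons y b =>
      simp only [cadd, cev_cons, ih, Int.cast_add]
      ring

theorem cev_csmul (r : A) (n : Int) (a : Cf) : cev r (csmul n a) = (n : A) * cev r a := by
  induction a with
  | nil => simp [csmul, cev]
  | cons x a ih =>
    simp only [csmul, cev_cons, ih, Int.cast_mul]
    ring

theorem cev_cmul (r : A) (a b : Cf) : cev r (cmul a b) = cev r a * cev r b := by
  induction a with
  | nil => simp [cmul, cev]
  | cons x a ih =>
    cases a with
    | nil => simp [cmul, cev_cons, cev_csmul, cev_nil]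
    | cons y a =>
      simp only [cmul, cev_cons, cev_cadd, cev_csmul, Int.cast_zero] at ih ⊢
      rw [ih]
      ring

theorem cev_cpow (r : A) (c : Cf) (n : Nat) : cev r (cpow c n) = cev r c ^ n := by
  induction n with
  | zero => simp [cpow, cev]
  | succ n ih => rw [cpow, cev_cmul, ih, pow_succ']

theorem cev_eq_zero_of_cisz (r : A) (c : Cf) (h : cisz c = true) : cev r c = 0 := by
  induction c with
  | nil => rfl
  | cons x a ih =>
    cases x with
    | ofNat n =>
      cases n with
      | zero =>
        simp only [cisz] at h
        rw [cev_cons, ih h]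
        simp
      | succ n => exact absurd (show false = true from h) (by decide)
    | negSucc n => exact absurd (show false = true from h) (by decide)

theorem cev_cderAux_succ (r : A) (n : Nat) (a : Cf) :
    cev r (cderAux (n + 1) a) = cev r (cderAux n a) + cev r a := by
  induction a generalizing n with
  | nil => simp [cderAux, cev]
  | cons x a ih =>
    simp only [cderAux, cev_cons, ih (n + 1), Int.cast_mul]
    push_cast
    ring

/-- derivative of a coefficient polynomial -/
theorem cev_cder (D : Derivation ℤ A A) (r : A) (a : Cf) :
    D (cev r a) = cev r (cder a) * D r := by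
  induction a with
  | nil => simp [cder, cev]
  | cons x a ih =>
    have h1 : cev r (cderAux 1 a) = cev r a + r * cev r (cder a) := by
      cases a with
      | nil => simp [cderAux, cder, cev]
      | cons y a =>
        simp only [cderAux, cder, cev_cons, cev_cderAux_succ r 1 a]
        push_cast
        ring
    have h2 : D ((x : ℤ) : A) = 0 := D.map_intCast x
    rw [cev_cons, map_add, h2, Derivation.leibniz, ih]
    simp only [cder, h1, smul_eq_mul]
    ring

/-! monomials -/

theorem mev_nil (v : Nat → A) : mev v [] = 1 := rfl

theorem mev_cons (v : Nat → A) (x : Nat) (m : Mo) : mev v (x :: m) = v x * mev v m := rfl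

theorem eq_of_mcmp (m m' : Mo) (h : mcmp m m' = 0) : m = m' := by
  induction m generalizing m' with
  | nil =>
    cases m' with
    | nil => rfl
    | cons y b => simp [mcmp] at h
  | cons x a ih =>
    cases m' with
    | nil => simp [mcmp] at h
    | cons y b =>
      simp only [mcmp] at h
      cases hxy : Nat.beq x y with
      | false =>
        rw [hxy] at h
        cases hle : Nat.ble x y with
        | false => simp [hle] at h
        | true => simp [hle] at h
      | true =>
        rw [hxy] at h
        simp only [cond_true] at h
        rw [Nat.eq_of_beq_eq_true hxy, ih b h]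

theorem mev_mmulAux (v : Nat → A) (x : Nat) (xs : Mo) (f : Mo → Mo)
    (hf : ∀ b, mev v (f b) = mev v xs * mev v b) (b : Mo) :
    mev v (mmulAux x xs f b) = v x * mev v xs * mev v b := by
  induction b with
  | nil => simp [mmulAux, mev_cons, mev_nil]
  | cons y b ih =>
    simp only [mmulAux]
    cases hle : Nat.ble x y with
    | false =>
      simp only [cond_false, mev_cons, ih]
      ring
    | true =>
      simp only [cond_true, mev_cons, hf]
      ring

theorem mev_mmul (v : Nat → A) (a b : Mo) : mev v (mmul a b) = mev v a * mev v b := by
  induction a generalizing b with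
  | nil => simp [mmul, mev_nil]
  | cons x a ih =>
    simp only [mmul]
    rw [mev_mmulAux v x a (mmul a) ih b, mev_cons]

/-- every part is the monomial with one copy of the variable removed -/
theorem parts_mev (v : Nat → A) (m : Mo) :
    ∀ t ∈ parts m, v t.2.1 * mev v t.2.2 = mev v m := by
  induction m with
  | nil => simp [parts]
  | cons x m ih =>
    intro t ht
    rw [parts] at ht
    cases hp : parts m with
    | nil =>
      rw [hp] at ht
      simp only [List.mem_singleton] at ht
      subst ht
      rfl
    | cons u l =>
      obtain ⟨k, y, q⟩ := u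
      rw [hp] at ht ih
      simp only at ht
      have hq : v y * mev v q = mev v m := ih (k, y, q) (by simp)
      have hl : ∀ t ∈ l.map (fun t => (t.1, t.2.1, x :: t.2.2)),
          v t.2.1 * mev v t.2.2 = mev v (x :: m) := by
        intro t ht
        rw [List.mem_map] at ht
        obtain ⟨s, hs, rfl⟩ := ht
        have := ih s (List.mem_cons_of_mem _ hs)
        simp only [mev_cons]
        rw [← this]
        ring
      cases hxy : Nat.beq x y with
      | false =>
        rw [hxy] at ht
        simp only [cond_false, List.mem_cons] at ht
        rcases ht with rfl | rfl | ht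
        · rfl
        · simp only [mev_cons]
          rw [← hq]
          ring
        · exact hl t ht
      | true =>
        rw [hxy] at ht
        simp only [cond_true, List.mem_cons] at ht
        rcases ht with rfl | ht
        · simp only [mev_cons]
          rw [← hq]
          ring
        · exact hl t ht

/-- derivative of a monomial through its parts -/
theorem mev_der (D : Derivation ℤ A A) (v : Nat → A) (m : Mo) :
    D (mev v m) =
      ((parts m).map (fun t => (t.1 : A) * mev v t.2.2 * D (v t.2.1))).sum := by
  induction m with
  | nil => simp [parts, mev_nil]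
  | cons x m ih =>
    have hm := parts_mev v m
    have hmap : ∀ l : List (Nat × Nat × Mo),
        ((l.map (fun t => (t.1, t.2.1, x :: t.2.2))).map
          (fun t : Nat × Nat × Mo => (t.1 : A) * mev v t.2.2 * D (v t.2.1))).sum =
        v x * (l.map (fun t => (t.1 : A) * mev v t.2.2 * D (v t.2.1))).sum := by
      intro l
      induction l with
      | nil => simp
      | cons t l ihl =>
        simp only [List.map_cons, List.sum_cons, ihl, mev_cons]
        ring
    rw [mev_cons, Derivation.leibniz, ih, parts]
    cases hp : parts m with
    | nil =>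
      simp
    | cons u l =>
      obtain ⟨k, y, q⟩ := u
      have hq : v y * mev v q = mev v m := hm (k, y, q) (by rw [hp]; simp)
      cases hxy : Nat.beq x y with
      | false =>
        simp only [hxy, cond_false, List.map_cons, List.sum_cons, hmap, mev_cons, smul_eq_mul,
          Nat.cast_one]
        ring
      | true =>
        have hxy' : x = y := Nat.eq_of_beq_eq_true hxy
        subst hxy'
        simp only [hxy, cond_true, List.map_cons, List.sum_cons, hmap, mev_cons, smul_eq_mul,
          Nat.cast_add, Nat.cast_one]
        rw [← hq]
        ring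

/-! polynomials -/

variable (r : A) (v : Nat → A)

theorem pev_nil : pev r v [] = 0 := rfl

theorem pev_cons (t : Mo × Cf) (P : Po) :
    pev r v (t :: P) = cev r t.2 * mev v t.1 + pev r v P := rfl

theorem pev_paddAux (m : Mo) (c : Cf) (P : Po) (f : Po → Po)
    (hf : ∀ Q, pev r v (f Q) = pev r v P + pev r v Q) (Q : Po) :
    pev r v (paddAux m c P f Q) = cev r c * mev v m + pev r v P + pev r v Q := by
  induction Q with
  | nil => simp [paddAux, pev_cons, pev_nil]
  | cons t Q ih =>
    rw [paddAux]
    split
    · next h =>
      have hm := eq_of_mcmp m t.1 h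
      simp only [pev_cons, cev_cadd, hf, ← hm]
      ring
    · simp only [pev_cons, hf]
      ring
    · simp only [pev_cons, ih]
      ring

theorem pev_padd (P Q : Po) : pev r v (padd P Q) = pev r v P + pev r v Q := by
  induction P generalizing Q with
  | nil => simp [padd, pev_nil]
  | cons t P ih =>
    obtain ⟨m, c⟩ := t
    rw [padd]
    rw [pev_paddAux r v m c P (padd P) ih Q, pev_cons]

theorem pev_ptmul (m : Mo) (c : Cf) (P : Po) :
    pev r v (ptmul m c P) = cev r c * mev v m * pev r v P := by
  induction P with
  | nil => simp [ptmul, pev_nil]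
  | cons t P ih =>
    simp only [ptmul, pev_cons, ih, cev_cmul, mev_mmul]
    ring

theorem pev_pmul (P Q : Po) : pev r v (pmul P Q) = pev r v P * pev r v Q := by
  induction P with
  | nil => simp [pmul, pev_nil]
  | cons t P ih =>
    obtain ⟨m, c⟩ := t
    simp only [pmul, pev_padd, pev_ptmul, pev_cons, ih]
    ring

theorem pev_pcmul (c : Cf) (P : Po) : pev r v (pcmul c P) = cev r c * pev r v P := by
  induction P with
  | nil => simp [pcmul, pev_nil]
  | cons t P ih =>
    simp only [pcmul, pev_cons, ih, cev_cmul]
    ring

theorem pev_pneg (P : Po) : pev r v (pneg P) = - pev r v P := by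
  rw [pneg, pev_pcmul]
  simp [cev]

theorem pev_psub (P Q : Po) : pev r v (psub P Q) = pev r v P - pev r v Q := by
  rw [psub, pev_padd, pev_pneg]
  ring

theorem pev_eq_zero_of_pisz (P : Po) (h : pisz P = true) : pev r v P = 0 := by
  induction P with
  | nil => rfl
  | cons t P ih =>
    simp only [pisz, Bool.and_eq_true] at h
    rw [pev_cons, ih h.2, cev_eq_zero_of_cisz r t.2 h.1]
    simp

theorem pev_eq_of_peq (P Q : Po) (h : peq P Q = true) : pev r v P = pev r v Q := by
  have := pev_eq_zero_of_pisz r v (psub P Q) h
  rw [pev_psub] at this
  exact sub_eq_zero.mp this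

theorem pev_mder (D : Derivation ℤ A A) (dv : Nat → Po)
    (hv : ∀ i, D (v i) = pev r v (dv i)) (c : Cf) (l : List (Nat × Nat × Mo)) :
    pev r v (mder dv c l) =
      cev r c * (l.map (fun t => (t.1 : A) * mev v t.2.2 * D (v t.2.1))).sum := by
  induction l with
  | nil => simp [mder, pev_nil]
  | cons t l ih =>
    obtain ⟨k, x, m⟩ := t
    simp only [mder, pev_padd, pev_ptmul, cev_csmul, ih, List.map_cons, List.sum_cons, hv,
      Int.cast_natCast]
    ring

theorem pev_pder (D : Derivation ℤ A A) (dr : Po) (dv : Nat → Po) (P : Po)
    (hr : D r = pev r v dr) (hv : ∀ i, D (v i) = pev r v (dv i)) :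
    D (pev r v P) = pev r v (pder dr dv P) := by
  induction P with
  | nil => simp [pder, pev_nil]
  | cons t P ih =>
    obtain ⟨m, c⟩ := t
    simp only [pder, pev_padd, pev_ptmul, pev_mder r v D dv hv, pev_cons, map_add,
      Derivation.leibniz, smul_eq_mul, ih, cev_cder D r c, mev_der D v m, hr]
    ring

end sem

theorem l1 : StL1 := by
  refine ⟨fun A _ r v P Q => ⟨pev_padd r v P Q, pev_pmul r v P Q, pev_psub r v P Q,
    pev_eq_zero_of_pisz r v P, pev_eq_of_peq r v P Q⟩,
    fun A _ r v P m c => ⟨pev_ptmul r v m c P, pev_pcmul r v c P⟩,
    fun A _ r a b n => ⟨cev_cadd r a b, cev_cmul r a b, cev_cpow r a n⟩,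
    fun A _ D r v dr dv P hr hv => pev_pder r v D dr dv P hr hv⟩

end Y899.BR
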